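import Pool.Agent.Helper45.CF.GoalsB

/-!
# Project CF (MP_d97caa_an), packet FIN
-/

set_option autoImplicit false

namespace Pool.Agent.Helper95.CF.FIN

open Pool.Agent.Helper45.CF
open scoped Topology

theorem t : S_FIN := by
  intro Y A _ _ _ _ g ε hε
  have hX : CompactSpace (ℕ → Y) := inferInstance
  have hc : ∀ x : ℕ → Y, ∃ (I : Finset ℕ) (u : ℕ → Set Y), (∀ a ∈ I, IsOpen (u a) ∧ x a ∈ u a) ∧
      (I : Set ℕ).pi u ⊆ {x' | ‖g x' - g x‖ < ε / 2} := by
    intro x
    have ho : IsOpen {x' : ℕ → Y | ‖g x' - g x‖ < ε / 2} :=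
      isOpen_lt (by fun_prop) continuous_const
    exact isOpen_pi_iff.1 ho x (by simpa using half_pos hε)
  choose I u hu hs using hc
  obtain ⟨s, hcov⟩ := CompactSpace.elim_nhds_subcover (fun x => (I x : Set ℕ).pi (u x))
    (fun x => (isOpen_set_pi (I x).finite_toSet fun a ha => (hu x a ha).1).mem_nhds
      fun a ha => (hu x a ha).2)
  obtain ⟨y0⟩ := (inferInstance : Nonempty Y)
  let n : ℕ := s.sup fun x => (I x).sup id + 1
  let ext : (Fin n → Y) → ℕ → Y := fun z i => if h : i < n then z ⟨i, h⟩ else y0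
  have hext : Continuous ext := by
    refine continuous_pi fun i => ?_
    by_cases h : i < n
    · simp only [ext, h, dite_true]; exact continuous_apply _
    · simp only [ext, h, dite_false]; exact continuous_const
  refine ⟨n, ⟨fun z => g (ext z), g.continuous.comp hext⟩, fun x' => ?_⟩
  have hx' : x' ∈ ⋃ x ∈ s, (I x : Set ℕ).pi (u x) := by rw [hcov]; trivial
  obtain ⟨x, hx, hxu⟩ := Set.mem_iUnion₂.1 hx'
  have h1 : ‖g x' - g x‖ < ε / 2 := hs x hxu
  have h2 : ‖g (ext fun i => x' i) - g x‖ < ε / 2 := by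
    apply hs x
    intro a ha
    have han : a < n := by
      have k1 : a ≤ (I x).sup id := Finset.le_sup (f := id) (Finset.mem_coe.1 ha)
      have k2 : (I x).sup id + 1 ≤ n := Finset.le_sup (f := fun x => (I x).sup id + 1) hx
      omega
    have k3 : ext (fun i => x' i) a = x' a := by simp only [ext, han, dite_true]
    rw [k3]
    exact hxu a ha
  have h3 : g x' - g (ext fun i => x' i) = (g x' - g x) - (g (ext fun i => x' i) - g x) := by
    abel
  change ‖g x' - g (ext fun i => x' i)‖ < ε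
  rw [h3]
  calc ‖(g x' - g x) - (g (ext fun i => x' i) - g x)‖
      ≤ ‖g x' - g x‖ + ‖g (ext fun i => x' i) - g x‖ := norm_sub_le _ _
    _ < ε := by linarith

end Pool.Agent.Helper95.CF.FIN
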